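import Pool.Agent.helper32.PN.Spec

/-!
# pn:CHR (MP_405bd9_al): the reachable states
-/

set_option autoImplicit false

namespace Pool.Agent.PN

open Module Polynomial Pool.Agent.helper27.PC

noncomputable section

/-- the sum of the positions -/
def CHR_sm (S : St) : ℕ := ∑ p ∈ SD_pos true S, p + ∑ p ∈ SD_pos false S, p

lemma CHR_move {a : ℕ} {S : St} {l : Lab} (hl : l ∈ addable a S) :
    (∀ b, (SD_pos b (move a S l)).card = (SD_pos b S).card) ∧
      CHR_sm (move a S l) = CHR_sm S + a := by
  obtain ⟨h1, h2⟩ := SD_add hl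
  constructor
  · intro b
    rw [SD_pos_move]
    split_ifs with h
    · rw [h, Finset.card_insert_of_notMem (fun h => h2 (Finset.mem_of_mem_erase h)),
        Finset.card_erase_of_mem h1]
      have : 0 < (SD_pos l.1 S).card := Finset.card_pos.2 ⟨_, h1⟩
      omega
    · rfl
  · have hz : (∑ p ∈ SD_pos true (move a S l), (p : ℤ)) + ∑ p ∈ SD_pos false (move a S l), (p : ℤ) =
        ∑ p ∈ SD_pos true S, (p : ℤ) + ∑ p ∈ SD_pos false S, (p : ℤ) + a := by
      obtain ⟨b, p⟩ := l
      simp only at h1 h2
      cases b
      · rw [SD_pos_move true, SD_pos_move false, if_neg (by simp), if_pos rfl,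
          SD_sum_move (fun x : ℕ => (x : ℤ)) h1 h2]
        push_cast; ring
      · rw [SD_pos_move false, SD_pos_move true, if_pos rfl, if_neg (by simp),
          SD_sum_move (fun x : ℕ => (x : ℤ)) h1 h2]
        push_cast; ring
    have hz' : ((CHR_sm (move a S l) : ℕ) : ℤ) = ((CHR_sm S + a : ℕ) : ℤ) := by
      unfold CHR_sm
      push_cast
      exact hz
    exact Int.natCast_inj.1 hz'

lemma CHR_fwd : ∀ (i : ℕ) (S T : St), T ∈ ends i S →
    (∀ b, (SD_pos b T).card = (SD_pos b S).card) ∧ CHR_sm T = CHR_sm S + i := by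
  intro i
  induction i with
  | zero =>
    intro S T hT
    unfold ends at hT
    rw [Finset.mem_singleton] at hT
    subst hT
    exact ⟨fun _ => rfl, rfl⟩
  | succ i ih =>
    intro S T hT
    unfold ends at hT
    rw [Finset.mem_biUnion] at hT
    obtain ⟨l, hl, hT⟩ := hT
    obtain ⟨h1, h2⟩ := ih _ _ hT
    obtain ⟨h3, h4⟩ := CHR_move hl
    exact ⟨fun b => (h1 b).trans (h3 b), by omega⟩

lemma CHR_down {T : St} (h : ∀ b p, (b, p + 1) ∈ T → (b, p) ∈ T) (b : Bool) :
    SD_pos b T = Finset.range (SD_pos b T).card := by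
  have hdown : ∀ i ∈ SD_pos b T, ∀ j < i, j ∈ SD_pos b T := by
    intro i
    induction i with
    | zero => intro _ j hj; omega
    | succ i ih =>
      intro hi j hj
      have h1 : i ∈ SD_pos b T := SD_mem_pos.2 (h b i (SD_mem_pos.1 hi))
      rcases Nat.lt_succ_iff_lt_or_eq.1 hj with h2 | h2
      · exact ih h1 j h2
      · rw [h2]
        exact h1
  ext p
  rw [SD_down hdown, Finset.mem_range]

lemma CHR_bwd (S₀ : St) (n : Bool → ℕ) (hS₀ : ∀ b, SD_pos b S₀ = Finset.range (n b)) :
    ∀ (i : ℕ) (T : St), (∀ b, (SD_pos b T).card = n b) →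
      CHR_sm T = ∑ p ∈ Finset.range (n true), p + ∑ p ∈ Finset.range (n false), p + i →
      T ∈ ends i S₀ := by
  intro i
  induction i with
  | zero =>
    intro T hc hs
    unfold ends
    rw [Finset.mem_singleton]
    by_cases hd : ∀ b p, (b, p + 1) ∈ T → (b, p) ∈ T
    · apply SD_pos_ext
      intro b
      rw [CHR_down hd b, hc, hS₀]
    · exfalso
      push Not at hd
      obtain ⟨b, p, h1, h2⟩ := hd
      have h3 : p ∉ SD_pos b T := fun h => h2 (SD_mem_pos.1 h)
      have h4 : p + 1 ∈ SD_pos b T := SD_mem_pos.2 h1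
      have h5 := SD_minsum (insert p ((SD_pos b T).erase (p + 1)))
      have h6 := SD_minsum (SD_pos (!b) T)
      have h7 := Finset.add_sum_erase (SD_pos b T) (fun x => x) h4
      have h8 : 0 < (SD_pos b T).card := Finset.card_pos.2 ⟨_, h4⟩
      rw [Finset.card_insert_of_notMem (fun h => h3 (Finset.mem_of_mem_erase h)),
        Finset.card_erase_of_mem h4, Nat.sub_add_cancel h8,
        Finset.sum_insert (fun h => h3 (Finset.mem_of_mem_erase h)), hc] at h5
      rw [hc] at h6
      unfold CHR_sm at hs
      cases b <;> simp only [Bool.not_true, Bool.not_false] at h6 <;> omega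
  | succ i ih =>
    intro T hc hs
    have hex : ∃ b p, (b, p + 1) ∈ T ∧ (b, p) ∉ T := by
      by_contra hcon
      push Not at hcon
      have h1 := CHR_down hcon true
      have h2 := CHR_down hcon false
      rw [hc] at h1 h2
      unfold CHR_sm at hs
      rw [h1, h2] at hs
      omega
    obtain ⟨b, p, h1, h2⟩ := hex
    have hne : ((b, p) : Lab) ≠ (b, p + 1) := by simp
    have h3 : (b, p) ∈ addable 1 (insert (b, p) (T.erase (b, p + 1))) := by
      rw [NU_mem_addable]
      refine ⟨Finset.mem_insert_self _ _, ?_⟩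
      show (b, p + 1) ∉ insert (b, p) (T.erase (b, p + 1))
      rw [Finset.mem_insert, Finset.mem_erase]
      rintro (h | h)
      · exact hne h.symm
      · exact h.1 rfl
    have h4 : move 1 (insert (b, p) (T.erase (b, p + 1))) (b, p) = T := by
      show insert (b, p + 1) ((insert (b, p) (T.erase (b, p + 1))).erase (b, p)) = T
      rw [Finset.erase_insert (fun h => h2 (Finset.mem_of_mem_erase h)), Finset.insert_erase h1]
    obtain ⟨h5, h6⟩ := CHR_move h3
    rw [h4] at h5 h6
    have h7 : insert (b, p) (T.erase (b, p + 1)) ∈ ends i S₀ := by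
      apply ih
      · intro b'
        rw [← h5 b', hc]
      · omega
    have h8 := NU_ends_add 1 i S₀ _ (move 1 (insert (b, p) (T.erase (b, p + 1))) (b, p)) h7
      (NU_ends_one h3)
    rw [h4] at h8
    exact h8

lemma CHR_vac (m : ℕ) (b : Bool) : SD_pos b (vac m) = Finset.range m := by
  ext p
  rw [SD_mem_pos]
  unfold vac
  simp

lemma CHR_base (s : Bool) (K : ℕ) (b : Bool) :
    SD_pos b (base s K) = Finset.range (if b = s then K + 1 else K) := by
  ext p
  rw [SD_mem_pos]
  unfold base vac
  rw [Finset.mem_insert, Finset.mem_product, Finset.mem_range, Finset.mem_range]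
  split_ifs with h
  · subst h
    simp only [Prod.mk.injEq, true_and, Finset.mem_univ]
    omega
  · simp [h]

theorem CHR : CHR_stmt := by
  refine ⟨fun m k S => ?_, fun s K i T => ?_⟩
  · constructor
    · intro h
      obtain ⟨h1, h2⟩ := CHR_fwd k _ _ h
      refine ⟨fun b => ?_, ?_⟩
      · rw [h1, CHR_vac, Finset.card_range]
      · unfold CHR_sm at h2
        rw [CHR_vac, CHR_vac] at h2
        omega
    · rintro ⟨h1, h2⟩
      apply CHR_bwd (vac m) (fun _ => m) (CHR_vac m) k S h1
      unfold CHR_sm
      omega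
  · constructor
    · intro h
      obtain ⟨h1, h2⟩ := CHR_fwd i _ _ h
      refine ⟨?_, ?_, ?_⟩
      · rw [h1, CHR_base, Finset.card_range, if_pos rfl]
      · rw [h1, CHR_base, Finset.card_range, if_neg (by simp)]
      · unfold CHR_sm at h2
        rw [CHR_base, CHR_base] at h2
        have h3 : ∑ p ∈ Finset.range (K + 1), p = ∑ p ∈ Finset.range K, p + K :=
          Finset.sum_range_succ _ _
        cases s
        · simp only [Bool.true_eq_false, if_false, if_true] at h2
          omega
        · simp only [Bool.false_eq_true, if_false, if_true] at h2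
          omega
    · rintro ⟨h1, h2, h3⟩
      have h4 : ∑ p ∈ Finset.range (K + 1), p = ∑ p ∈ Finset.range K, p + K :=
        Finset.sum_range_succ _ _
      apply CHR_bwd (base s K) (fun b => if b = s then K + 1 else K) (CHR_base s K) i T
      · intro b
        by_cases hb : b = s
        · rw [hb, h1, if_pos rfl]
        · have hb' : b = !s := by
            cases b <;> cases s <;> simp_all
          rw [if_neg hb, hb', h2]
      · unfold CHR_sm
        rw [h3]
        cases s
        · simp only [Bool.true_eq_false, if_false, if_true]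
          omega
        · simp only [Bool.false_eq_true, if_false, if_true]
          omega

end

end Pool.Agent.PN
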